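import Pool.Agent.helper22.DL.SpecE2

/-! # Project dl, module ECL: the equations extend by continuity -/

set_option autoImplicit false

namespace Pool.Agent.DL

open Matrix Complex MeasureTheory Set Filter Topology
open scoped ComplexOrder Manifold ContDiff ComplexConjugate

noncomputable section

theorem ECL_ext {E : Type} [TopologicalSpace E] [T2Space E] {f g : ℂ → E} (hf : ContinuousAt f 0)
    (hg : ContinuousAt g 0) (h : ∀ z ∈ Metric.ball (0 : ℂ) 1 \ {0}, f z = g z) : f 0 = g 0 := by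
  have h1 : Tendsto f (𝓝[≠] 0) (𝓝 (f 0)) := hf.tendsto.mono_left nhdsWithin_le_nhds
  have h2 : Tendsto g (𝓝[≠] 0) (𝓝 (g 0)) := hg.tendsto.mono_left nhdsWithin_le_nhds
  have h3 : Metric.ball (0 : ℂ) 1 \ {0} ∈ 𝓝[≠] (0 : ℂ) :=
    sdiff_mem_nhdsWithin_compl (Metric.ball_mem_nhds 0 one_pos) {0}
  exact tendsto_nhds_unique h1 (h2.congr' (by
    filter_upwards [h3] with z hz
    exact (h z hz).symm))

theorem ECL_fd {f : ℂ → ℂ} {z : ℂ} {m n : ℕ∞ω} (hf : ContDiffAt ℝ n f z) (hmn : m + 1 ≤ n) (v : ℂ) :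
    ContDiffAt ℝ m (fun w => fderiv ℝ f w v) z :=
  (hf.fderiv_right hmn).clm_apply contDiffAt_const

theorem ECL_dz {f : ℂ → ℂ} {z : ℂ} {m n : ℕ∞ω} (hf : ContDiffAt ℝ n f z) (hmn : m + 1 ≤ n) :
    ContDiffAt ℝ m (dz f) z := by
  have h1 := ECL_fd hf hmn 1
  have h2 := ECL_fd hf hmn I
  show ContDiffAt ℝ m (fun w => (fderiv ℝ f w 1 - I * fderiv ℝ f w I) / 2) z
  exact (h1.sub (contDiffAt_const.mul h2)).div_const 2

theorem ECL_dzb {f : ℂ → ℂ} {z : ℂ} {m n : ℕ∞ω} (hf : ContDiffAt ℝ n f z) (hmn : m + 1 ≤ n) :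
    ContDiffAt ℝ m (dzb f) z := by
  have h1 := ECL_fd hf hmn 1
  have h2 := ECL_fd hf hmn I
  show ContDiffAt ℝ m (fun w => (fderiv ℝ f w 1 + I * fderiv ℝ f w I) / 2) z
  exact (h1.add (contDiffAt_const.mul h2)).div_const 2

theorem ECL_re {u : ℂ → ℝ} {z : ℂ} {n : ℕ∞ω} (hu : ContDiffAt ℝ n u z) :
    ContDiffAt ℝ n (fun w => ((u w : ℝ) : ℂ)) z :=
  Complex.ofRealCLM.contDiff.contDiffAt.comp z hu

theorem ECL_lap (hW : LW_stmt) {u : ℂ → ℝ} (hu : ContDiffOn ℝ 2 u (Metric.ball 0 1)) :
    ContinuousAt (lap u) 0 := by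
  have hat : ∀ z ∈ Metric.ball (0 : ℂ) 1, ContDiffAt ℝ 2 u z := fun z hz =>
    hu.contDiffAt (Metric.isOpen_ball.mem_nhds hz)
  have h0 : (0 : ℂ) ∈ Metric.ball (0 : ℂ) 1 := Metric.mem_ball_self one_pos
  have h1 : ContDiffAt ℝ 1 (dz (fun v => ((u v : ℝ) : ℂ))) 0 :=
    ECL_dz (ECL_re (hat 0 h0)) (by norm_num)
  have h2 : ContinuousAt (dzb (dz (fun v => ((u v : ℝ) : ℂ)))) 0 :=
    (ECL_dzb (m := 0) h1 (by norm_num)).continuousAt
  have h3 : ContinuousAt (fun z => (dzb (dz (fun v => ((u v : ℝ) : ℂ))) z).re) 0 :=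
    Complex.continuous_re.continuousAt.comp h2
  refine h3.congr ?_
  filter_upwards [Metric.isOpen_ball.mem_nhds h0] with z hz
  have h4 := hW u z (hat z hz)
  rw [show dzb (dz (fun v => ((u v : ℝ) : ℂ))) z = ((lap u z : ℝ) : ℂ) from h4.symm,
    Complex.ofReal_re]

theorem ECL (hW : LW_stmt) : ECL_stmt := by
  intro W p r s L b L' b' cW cp cr cs hL hb h
  have h0 : (0 : ℂ) ∈ Metric.ball (0 : ℂ) 1 := Metric.mem_ball_self one_pos
  have hn : Metric.ball (0 : ℂ) 1 ∈ 𝓝 (0 : ℂ) := Metric.isOpen_ball.mem_nhds h0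
  have aW := cW.continuousAt hn
  have ap := cp.continuousAt hn
  have ar := cr.continuousAt hn
  have as := cs.continuousAt hn
  have dL := hL.contDiffAt hn
  have db := hb.contDiffAt hn
  have aL := dL.continuousAt
  have ab := db.continuousAt
  have dbb : ContDiffAt ℝ 1 (dzb b) 0 := ECL_dzb db (by norm_num)
  have abb := dbb.continuousAt
  have dLC : ContDiffAt ℝ 1 (fun w => (Real.exp (L w) : ℂ)) 0 :=
    ECL_re ((Real.contDiff_exp.contDiffAt.comp (0 : ℂ) dL).of_le (by norm_num))
  have axx : ContinuousAt (fun z => xx (p z) (b z)) 0 := by unfold xx; fun_prop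
  have ayy : ContinuousAt (fun z => yy (p z) (r z) (b z)) 0 := by unfold yy; fun_prop
  have aE : ContinuousAt (fun z => Real.exp (L z)) 0 := Real.continuous_exp.continuousAt.comp aL
  have aE2 : ContinuousAt (fun z => Real.exp (2 * L z)) 0 :=
    Real.continuous_exp.continuousAt.comp (continuousAt_const.mul aL)
  have aEn : ContinuousAt (fun z => Real.exp (-(L z))) 0 :=
    Real.continuous_exp.continuousAt.comp aL.neg
  have aEC : ContinuousAt (fun z => (Real.exp (L z) : ℂ)) 0 :=
    Complex.continuous_ofReal.continuousAt.comp aE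
  have aE2C : ContinuousAt (fun z => (Real.exp (2 * L z) : ℂ)) 0 :=
    Complex.continuous_ofReal.continuousAt.comp aE2
  have hconj : ∀ f : ℂ → ℂ, ContinuousAt f 0 → ContinuousAt (fun z => conj (f z)) 0 := fun f hf =>
    Complex.continuous_conj.continuousAt.comp hf
  have aRR : ContinuousAt (fun z => RR (p z) (r z) (L z) (b z)) 0 := by
    unfold RR
    exact ((aE.mul (axx.norm.pow 2)).add (aE2.mul (ayy.norm.pow 2))).sub aEn
  have aQQ : ContinuousAt (fun z => QQ (p z) (r z) (L z) (b z)) 0 := by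
    unfold QQ
    exact ((continuousAt_const.mul ab).sub
      (((continuousAt_const.mul aEC).mul (hconj _ ab)).mul axx)).add
      ((aE2C.mul ayy).mul (hconj _ axx))
  refine ⟨⟨hL, hb, ?_, ?_⟩, ?_⟩
  · intro z hz
    by_cases hz0 : z = 0
    · subst hz0
      refine ECL_ext (ECL_lap hW hL) ((aE.mul (abb.norm.pow 2)).add (aW.mul (aRR.add as)))
        (fun z hz => h.e1 z hz)
    · exact h.e1 z ⟨hz, hz0⟩
  · intro z hz
    by_cases hz0 : z = 0
    · subst hz0
      refine ECL_ext ?_ ((Complex.continuous_ofReal.continuousAt.comp aW).mul aQQ)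
        (fun z hz => h.e2 z hz)
      exact (ECL_dz (m := 0) (dLC.mul dbb) (by norm_num)).continuousAt
    · exact h.e2 z ⟨hz, hz0⟩
  · intro hL' hb' h'
    have dL' := hL'.contDiffAt hn
    have db' := hb'.contDiffAt hn
    have aL' := dL'.continuousAt
    have ab' := db'.continuousAt
    have dbb' : ContDiffAt ℝ 1 (dzb b') 0 := ECL_dzb db' (by norm_num)
    have abb' := dbb'.continuousAt
    have aL'C : ContinuousAt (fun z => (L' z : ℂ)) 0 :=
      Complex.continuous_ofReal.continuousAt.comp aL'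
    have aRR' : ContinuousAt (fun z => RR' (p z) (r z) (L z) (b z) (L' z) (b' z)) 0 := by
      unfold RR'
      have t1 : ContinuousAt (fun z => (conj (xx (p z) (b z)) * (-3 * b z * b' z)).re) 0 :=
        Complex.continuous_re.continuousAt.comp
          ((hconj _ axx).mul ((continuousAt_const.mul ab).mul ab'))
      have t2 : ContinuousAt (fun z => (conj (yy (p z) (r z) (b z)) *
          (2 * p z * b' z - 3 * b z ^ 2 * b' z)).re) 0 :=
        Complex.continuous_re.continuousAt.comp
          ((hconj _ ayy).mul (((continuousAt_const.mul ap).mul ab').sub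
            ((continuousAt_const.mul (ab.pow 2)).mul ab')))
      exact ((aE.mul ((aL'.mul (axx.norm.pow 2)).add (continuousAt_const.mul t1))).add
        (aE2.mul (((continuousAt_const.mul aL').mul (ayy.norm.pow 2)).add
          (continuousAt_const.mul t2)))).add (aEn.mul aL')
    have aQQ' : ContinuousAt (fun z => QQ' (p z) (r z) (L z) (b z) (L' z) (b' z)) 0 := by
      unfold QQ'
      have cb := hconj _ ab
      have cb' := hconj _ ab'
      have cx := hconj _ axx
      have t3 : ContinuousAt (fun z => conj (-3 * b z * b' z)) 0 :=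
        hconj _ ((continuousAt_const.mul ab).mul ab')
      have t4 : ContinuousAt (fun z => (L' z : ℂ) * conj (b z) * xx (p z) (b z) +
          conj (b' z) * xx (p z) (b z) + conj (b z) * (-3 * b z * b' z)) 0 :=
        (((aL'C.mul cb).mul axx).add (cb'.mul axx)).add
          (cb.mul ((continuousAt_const.mul ab).mul ab'))
      have t5 : ContinuousAt (fun z => 2 * (L' z : ℂ) * yy (p z) (r z) (b z) * conj (xx (p z) (b z)) +
          (2 * p z * b' z - 3 * b z ^ 2 * b' z) * conj (xx (p z) (b z)) +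
          yy (p z) (r z) (b z) * conj (-3 * b z * b' z)) 0 :=
        ((((continuousAt_const.mul aL'C).mul ayy).mul cx).add
          ((((continuousAt_const.mul ap).mul ab').sub
            ((continuousAt_const.mul (ab.pow 2)).mul ab')).mul cx)).add (ayy.mul t3)
      exact ((continuousAt_const.mul ab').sub ((continuousAt_const.mul aEC).mul t4)).add
        (aE2C.mul t5)
    refine ⟨hL', hb', ?_, ?_⟩
    · intro z hz
      by_cases hz0 : z = 0
      · subst hz0
        refine ECL_ext (ECL_lap hW hL') ((aE.mul ((continuousAt_const.mul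
          (Complex.continuous_re.continuousAt.comp ((hconj _ abb).mul abb'))).add
          (aL'.mul (abb.norm.pow 2)))).add (aW.mul aRR')) (fun z hz => h'.e1 z hz)
      · exact h'.e1 z ⟨hz, hz0⟩
    · intro z hz
      by_cases hz0 : z = 0
      · subst hz0
        refine ECL_ext ?_ ((Complex.continuous_ofReal.continuousAt.comp aW).mul aQQ')
          (fun z hz => h'.e2 z hz)
        have dL'C : ContDiffAt ℝ 1 (fun w => (L' w : ℂ)) 0 := ECL_re (dL'.of_le (by norm_num))
        exact (ECL_dz (m := 0) (dLC.mul (dbb'.add (dL'C.mul dbb))) (by norm_num)).continuousAt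
      · exact h'.e2 z ⟨hz, hz0⟩

end

end Pool.Agent.DL
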