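import Pool.Agent.helper22.DL.SpecE1

/-! # Project dl, module EKA: the power kernels are uniformly locally integrable -/

set_option autoImplicit false

namespace Pool.Agent.DL

open Matrix Complex MeasureTheory Set Filter Topology
open scoped ComplexOrder Manifold ContDiff ComplexConjugate

noncomputable section

theorem EKA_base (s : ℝ) (hs : s < 2) :
    IntegrableOn (fun ξ : ℂ => ‖ξ‖ ^ (-s)) (Metric.ball (0 : ℂ) 1) := by
  rw [MeasureTheory.integrableOn_fun_norm_addHaar (volume : Measure ℂ) (f := fun y : ℝ => y ^ (-s))]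
  have h1 : IntegrableOn (fun y : ℝ => y ^ (1 - s)) (Ioo 0 1) :=
    (intervalIntegral.integrableOn_Ioo_rpow_iff (by norm_num)).mpr (by linarith)
  refine h1.congr_fun (fun y hy => ?_) measurableSet_Ioo
  show y ^ (1 - s) = y ^ (Module.finrank ℝ ℂ - 1) • y ^ (-s)
  rw [Complex.finrank_real_complex, smul_eq_mul, pow_one, sub_eq_add_neg, Real.rpow_add hy.1,
    Real.rpow_one]

theorem EKA : EKA_stmt := by
  intro s R hs0 hs hR
  let F : ℂ → ℝ := (Metric.ball (0 : ℂ) 1).indicator (fun ξ : ℂ => ‖ξ‖ ^ (-s))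
  have hF : Integrable F := (integrable_indicator_iff measurableSet_ball).mpr (EKA_base s hs)
  have hF0 : ∀ ξ, 0 ≤ F ξ := fun ξ =>
    Set.indicator_nonneg (fun x _ => Real.rpow_nonneg (norm_nonneg _) _) ξ
  refine ⟨(∫ ξ, F ξ) + ∫ ξ in Metric.ball (0 : ℂ) R, (1 : ℝ), fun a => ?_⟩
  have hFa : Integrable (fun ξ => F (ξ - a)) := hF.comp_sub_right a
  have h1 : IntegrableOn (fun _ : ℂ => (1 : ℝ)) (Metric.ball (0 : ℂ) R) :=
    integrableOn_const measure_ball_lt_top.ne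
  have hG : IntegrableOn (fun ξ => F (ξ - a) + 1) (Metric.ball (0 : ℂ) R) :=
    hFa.integrableOn.add h1
  have hb : ∀ ξ : ℂ, ‖a - ξ‖ ^ (-s) ≤ F (ξ - a) + 1 := by
    intro ξ
    rw [norm_sub_rev]
    by_cases h : ‖ξ - a‖ < 1
    · have h2 : ξ - a ∈ Metric.ball (0 : ℂ) 1 := by rw [Metric.mem_ball, dist_zero_right]; exact h
      show ‖ξ - a‖ ^ (-s) ≤ (Metric.ball (0 : ℂ) 1).indicator (fun ξ : ℂ => ‖ξ‖ ^ (-s)) (ξ - a) + 1
      rw [Set.indicator_of_mem h2]
      linarith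
    · have h3 : ‖ξ - a‖ ^ (-s) ≤ 1 :=
        Real.rpow_le_one_of_one_le_of_nonpos (not_lt.mp h) (by linarith)
      have h4 := hF0 (ξ - a)
      linarith
  have hm : Measurable (fun ξ : ℂ => ‖a - ξ‖ ^ (-s)) := by
    have : Measurable (fun ξ : ℂ => ‖a - ξ‖) := by fun_prop
    exact this.pow_const (-s)
  have hi : IntegrableOn (fun ξ : ℂ => ‖a - ξ‖ ^ (-s)) (Metric.ball 0 R) := by
    refine Integrable.mono' hG hm.aestronglyMeasurable (Eventually.of_forall fun ξ => ?_)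
    rw [Real.norm_of_nonneg (Real.rpow_nonneg (norm_nonneg _) _)]
    exact hb ξ
  refine ⟨hi, ?_⟩
  calc ∫ ξ in Metric.ball (0 : ℂ) R, ‖a - ξ‖ ^ (-s)
      ≤ ∫ ξ in Metric.ball (0 : ℂ) R, (F (ξ - a) + 1) := integral_mono hi hG hb
    _ = (∫ ξ in Metric.ball (0 : ℂ) R, F (ξ - a)) + ∫ ξ in Metric.ball (0 : ℂ) R, (1 : ℝ) :=
        integral_add hFa.integrableOn h1
    _ ≤ (∫ ξ, F ξ) + ∫ ξ in Metric.ball (0 : ℂ) R, (1 : ℝ) := by
        refine add_le_add ?_ le_rfl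
        calc ∫ ξ in Metric.ball (0 : ℂ) R, F (ξ - a) ≤ ∫ ξ, F (ξ - a) :=
              setIntegral_le_integral hFa (Eventually.of_forall fun ξ => hF0 _)
          _ = ∫ ξ, F ξ := integral_sub_right_eq_self F a

end

end Pool.Agent.DL
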