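import Pool.Agent.helper22.DL.SpecE1

/-! # Project dl, module EKF: the kernels of `mt * TG` -/

set_option autoImplicit false

namespace Pool.Agent.DL

open Matrix Complex MeasureTheory Set Filter Topology
open scoped ComplexOrder Manifold ContDiff ComplexConjugate

noncomputable section

theorem EKF_sub : Dk ⊆ Metric.ball (0 : ℂ) 2 := Metric.closedBall_subset_ball (by norm_num)

theorem EKF_wt0 (ξ : ℂ) : 0 ≤ Wt 1 ξ := by unfold Wt; positivity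

theorem EKF_mt0 (ξ : ℂ) : 0 ≤ mt ξ := Real.rpow_nonneg (norm_nonneg _) _

theorem EKF_ae (a : ℂ) : ∀ᵐ ξ ∂(volume.restrict Dk), ξ ≠ a :=
  ae_restrict_of_ae (compl_mem_ae_iff.mpr (measure_singleton a))

theorem EKF_wtc {a : ℂ} (ha : a ^ 8 ≠ 1) : ∃ B δ : ℝ, 0 ≤ B ∧ 0 < δ ∧ ∀ ξ : ℂ, ‖a - ξ‖ < δ →
    Wt 1 ξ ≤ B := by
  have h0 : ‖1 - a ^ 8‖ ≠ 0 := norm_ne_zero_iff.mpr (sub_ne_zero.mpr (Ne.symm ha))
  have h1 : ContinuousAt (Wt 1) a := by
    unfold Wt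
    exact continuousAt_const.div (by fun_prop) h0
  have h2 : ∀ᶠ ξ in 𝓝 a, Wt 1 ξ < Wt 1 a + 1 := h1.eventually_lt continuousAt_const (by linarith)
  obtain ⟨δ, hδ, h3⟩ := Metric.eventually_nhds_iff.mp h2
  refine ⟨Wt 1 a + 1, δ, by have := EKF_wt0 a; linarith, hδ, fun ξ hξ => (h3 ?_).le⟩
  rw [dist_comm, dist_eq_norm]
  exact hξ

theorem EKF_int_le {f g : ℂ → ℝ} (hg : IntegrableOn g (Metric.ball 0 2)) (hg0 : ∀ ξ, 0 ≤ g ξ)
    (hf0 : ∀ ξ, 0 ≤ f ξ) (hfg : ∀ᵐ ξ ∂(volume.restrict Dk), f ξ ≤ g ξ) :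
    ∫ ξ in Dk, f ξ ≤ ∫ ξ in Metric.ball (0 : ℂ) 2, g ξ := by
  calc ∫ ξ in Dk, f ξ ≤ ∫ ξ in Dk, g ξ :=
        integral_mono_of_nonneg (Eventually.of_forall hf0) (hg.mono_set EKF_sub) hfg
    _ ≤ ∫ ξ in Metric.ball (0 : ℂ) 2, g ξ :=
        setIntegral_mono_set hg (Eventually.of_forall hg0) (Eventually.of_forall EKF_sub)

theorem EKF_core (hA : EKA_stmt) (hB : EKB_stmt) (hC : EKC_stmt) (hD : EKD_stmt)
    (c : ℂ → ℂ) (hci : ∀ z w, ‖c z - c w‖ = ‖z - w‖) (hcn : ∀ z, ‖c z‖ = ‖z‖)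
    (hc8 : ∀ z, ‖1 - (c z) ^ 8‖ = ‖1 - z ^ 8‖) (q : ℂ → ℂ → ℂ) (hqm : ∀ z, Measurable (q z))
    (h1 : ∀ z ∈ Dk, ∀ ξ ∈ Dk, ξ ≠ c z → ‖q z ξ‖ ≤ ‖c z - ξ‖⁻¹)
    (h2 : ∀ z ∈ Dk, ∀ z₀ ∈ Dk, ∀ ξ ∈ Dk, ξ ≠ c z → ξ ≠ c z₀ →
      ‖q z ξ - q z₀ ξ‖ ≤ ‖z - z₀‖ / (‖c z - ξ‖ * ‖c z₀ - ξ‖)) :
    GK (fun z ξ : ℂ => ((mt z : ℝ) : ℂ) * ((Wt 1 ξ : ℂ) * q z ξ)) := by
  obtain ⟨C, hCpos, hD1, -, ⟨hDW, -⟩, -⟩ := hD 2 (by norm_num)
  obtain ⟨C', hA'⟩ := hA (3 / 2) 2 (by norm_num) (by norm_num) (by norm_num)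
  obtain ⟨-, hB2, -, -⟩ := hB
  obtain ⟨-, -, -, hWm, -, hmtc, -, -, -, -⟩ := hC
  have hcD : ∀ z ∈ Dk, c z ∈ Metric.ball (0 : ℂ) 2 := by
    intro z hz
    rw [Metric.mem_closedBall, dist_zero_right] at hz
    rw [Metric.mem_ball, dist_zero_right, hcn]
    linarith
  have hc1 : ∀ z, z ^ 8 ≠ 1 → (c z) ^ 8 ≠ 1 := by
    intro z hz h0
    have := hc8 z
    rw [h0, sub_self, norm_zero] at this
    exact hz (sub_eq_zero.mp (norm_eq_zero.mp this.symm)).symm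
  have hmtcz : ∀ z, mt (c z) = mt z := fun z => by unfold mt; rw [hc8]
  have hmt1 : ∀ z, z ^ 8 = 1 → mt z = 0 := by
    intro z hz
    unfold mt
    rw [hz, sub_self, norm_zero, Real.zero_rpow (by norm_num)]
  have hmtpos : ∀ z, z ^ 8 ≠ 1 → 0 < mt z := fun z hz =>
    Real.rpow_pos_of_pos (norm_pos_iff.mpr (sub_ne_zero.mpr (Ne.symm hz))) _
  -- bound of the kernel
  have hk : ∀ z ∈ Dk, ∀ᵐ ξ ∂(volume.restrict Dk), ‖(Wt 1 ξ : ℂ) * q z ξ‖ ≤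
      Wt 1 ξ * ‖c z - ξ‖⁻¹ := by
    intro z hz
    filter_upwards [EKF_ae (c z), ae_restrict_mem Metric.isClosed_closedBall.measurableSet] with ξ hξ hD
    rw [norm_mul, Complex.norm_real, Real.norm_of_nonneg (EKF_wt0 ξ)]
    exact mul_le_mul_of_nonneg_left (h1 z hz ξ hD hξ) (EKF_wt0 ξ)
  have hmeas : ∀ z, AEStronglyMeasurable (fun ξ => (Wt 1 ξ : ℂ) * q z ξ) (volume.restrict Dk) :=
    fun z => ((Complex.measurable_ofReal.comp (hWm 1)).mul (hqm z)).aestronglyMeasurable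
  refine ⟨?_, ?_⟩
  · intro z hz
    by_cases h8 : z ^ 8 = 1
    · have : (fun ξ : ℂ => ((mt z : ℝ) : ℂ) * ((Wt 1 ξ : ℂ) * q z ξ)) = fun _ => 0 := by
        funext ξ
        rw [hmt1 z h8, Complex.ofReal_zero, zero_mul]
      show IntegrableOn (fun ξ : ℂ => ((mt z : ℝ) : ℂ) * ((Wt 1 ξ : ℂ) * q z ξ)) Dk
      rw [this]
      exact integrableOn_zero
    · have h3 : IntegrableOn (fun ξ => (Wt 1 ξ : ℂ) * q z ξ) Dk :=
        Integrable.mono' ((hD1 (c z) (hcD z hz) (hc1 z h8)).1.mono_set EKF_sub) (hmeas z) (hk z hz)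
      exact h3.const_mul _
  · intro z₀ hz₀
    by_cases h8 : z₀ ^ 8 = 1
    · -- at a root
      have hlim : Tendsto (fun z : ℂ => C * ‖1 - z ^ 8‖ ^ (1 / 8 : ℝ)) (𝓝[Dk] z₀) (𝓝 0) := by
        have h3 : Continuous (fun z : ℂ => C * ‖1 - z ^ 8‖ ^ (1 / 8 : ℝ)) := by
          refine continuous_const.mul (Continuous.rpow_const (by fun_prop) ?_)
          intro z
          right
          norm_num
        have h4 := (h3.tendsto z₀).mono_left (nhdsWithin_le_nhds (s := Dk))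
        rw [h8, sub_self, norm_zero, Real.zero_rpow (by norm_num), mul_zero] at h4
        exact h4
      refine tendsto_of_tendsto_of_tendsto_of_le_of_le' tendsto_const_nhds hlim
        (Eventually.of_forall fun z => integral_nonneg fun ξ => norm_nonneg _) ?_
      filter_upwards [self_mem_nhdsWithin] with z hz
      by_cases h8' : z ^ 8 = 1
      · have e1 : (fun ξ : ℂ => ‖((mt z : ℝ) : ℂ) * ((Wt 1 ξ : ℂ) * q z ξ) -
            ((mt z₀ : ℝ) : ℂ) * ((Wt 1 ξ : ℂ) * q z₀ ξ)‖) = fun _ => 0 := by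
          funext ξ
          rw [hmt1 z h8', hmt1 z₀ h8, Complex.ofReal_zero, zero_mul, zero_mul, sub_self, norm_zero]
        rw [e1]
        simp only [integral_zero]
        positivity
      · have hne : 0 < ‖1 - z ^ 8‖ := norm_pos_iff.mpr (sub_ne_zero.mpr (Ne.symm h8'))
        obtain ⟨h3, h4, h5⟩ := hD1 (c z) (hcD z hz) (hc1 z h8')
        have h6 : ∫ ξ in Dk, ‖((mt z : ℝ) : ℂ) * ((Wt 1 ξ : ℂ) * q z ξ) -
            ((mt z₀ : ℝ) : ℂ) * ((Wt 1 ξ : ℂ) * q z₀ ξ)‖ ≤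
            ∫ ξ in Metric.ball (0 : ℂ) 2, mt z * (Wt 1 ξ * ‖c z - ξ‖⁻¹) := by
          refine EKF_int_le (h3.const_mul _) (fun ξ => ?_) (fun ξ => norm_nonneg _) ?_
          · exact mul_nonneg (EKF_mt0 z) (mul_nonneg (EKF_wt0 ξ) (inv_nonneg.mpr (norm_nonneg _)))
          · filter_upwards [hk z hz] with ξ hξ
            rw [hmt1 z₀ h8, Complex.ofReal_zero, zero_mul, sub_zero, norm_mul, Complex.norm_real,
              Real.norm_of_nonneg (EKF_mt0 z)]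
            exact mul_le_mul_of_nonneg_left hξ (EKF_mt0 z)
        refine h6.trans ?_
        rw [integral_const_mul]
        refine (mul_le_mul_of_nonneg_left h5 (EKF_mt0 z)).trans ?_
        rw [hc8]
        unfold mt
        have e2 : ‖1 - z ^ 8‖ ^ (1 / 4 : ℝ) * (C * ‖1 - z ^ 8‖ ^ (-(1 / 8) : ℝ)) =
            C * (‖1 - z ^ 8‖ ^ (1 / 4 : ℝ) * ‖1 - z ^ 8‖ ^ (-(1 / 8) : ℝ)) := by ring
        rw [e2, ← Real.rpow_add hne]
        norm_num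
    · -- at a point which is not a root
      obtain ⟨B, δ, hB0, hδ, hBδ⟩ := EKF_wtc (hc1 z₀ h8)
      have hm0 := hmtpos z₀ h8
      set I0 : ℝ := ∫ ξ in Metric.ball (0 : ℂ) 2, Wt 1 ξ with hI0
      let g : ℂ → ℝ := fun z => |mt z - mt z₀| * (C * (mt z)⁻¹) +
        mt z₀ * ((2 * B * ‖z - z₀‖ ^ (1 / 2 : ℝ)) * (C' + C') + (‖z - z₀‖ * (2 / δ ^ 2)) * I0)
      have hlim : Tendsto g (𝓝[Dk] z₀) (𝓝 0) := by
        have h3 : ContinuousAt g z₀ := by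
          have h4 : ContinuousAt mt z₀ := hmtc.continuousAt
          have h5 : ContinuousAt (fun z : ℂ => ‖z - z₀‖ ^ (1 / 2 : ℝ)) z₀ := by
            refine ContinuousAt.rpow_const (by fun_prop) ?_
            right
            norm_num
          have h6 : ContinuousAt (fun z : ℂ => ‖z - z₀‖) z₀ := by fun_prop
          refine ((h4.sub continuousAt_const).abs.mul (continuousAt_const.mul (h4.inv₀ hm0.ne'))).add
            (continuousAt_const.mul (((continuousAt_const.mul h5).mul continuousAt_const).add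
              ((h6.mul continuousAt_const).mul continuousAt_const)))
        have h4 := h3.tendsto.mono_left (nhdsWithin_le_nhds (s := Dk))
        have h5 : g z₀ = 0 := by
          simp only [g]
          rw [sub_self, sub_self, abs_zero, norm_zero, Real.zero_rpow (by norm_num)]
          ring
        rw [h5] at h4
        exact h4
      refine tendsto_of_tendsto_of_tendsto_of_le_of_le' tendsto_const_nhds hlim
        (Eventually.of_forall fun z => integral_nonneg fun ξ => norm_nonneg _) ?_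
      have hev1 : ∀ᶠ z in 𝓝[Dk] z₀, ‖z - z₀‖ < δ / 2 := by
        have h3 : ∀ᶠ z in 𝓝 z₀, dist z z₀ < δ / 2 := Metric.ball_mem_nhds z₀ (by linarith)
        filter_upwards [h3.filter_mono nhdsWithin_le_nhds] with z hz
        rw [← dist_eq_norm]
        exact hz
      have hev2 : ∀ᶠ z in 𝓝[Dk] z₀, z ^ 8 ≠ 1 := by
        have h3 : ContinuousAt (fun z : ℂ => z ^ 8) z₀ := by fun_prop
        exact (h3.eventually_ne h8).filter_mono nhdsWithin_le_nhds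
      filter_upwards [self_mem_nhdsWithin, hev1, hev2] with z hz hz1 hz2
      obtain ⟨h3, h4, -⟩ := hD1 (c z) (hcD z hz) (hc1 z hz2)
      have hAz := hA' (c z)
      have hAz0 := hA' (c z₀)
      let G : ℂ → ℝ := fun ξ => |mt z - mt z₀| * (Wt 1 ξ * ‖c z - ξ‖⁻¹) +
        mt z₀ * ((2 * B * ‖z - z₀‖ ^ (1 / 2 : ℝ)) *
          (‖c z - ξ‖ ^ (-(3 / 2) : ℝ) + ‖c z₀ - ξ‖ ^ (-(3 / 2) : ℝ)) +
          (‖z - z₀‖ * (2 / δ ^ 2)) * Wt 1 ξ)
      have hGi1 : IntegrableOn (fun ξ => |mt z - mt z₀| * (Wt 1 ξ * ‖c z - ξ‖⁻¹))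
          (Metric.ball 0 2) := h3.const_mul _
      have hGi2 : IntegrableOn (fun ξ => (2 * B * ‖z - z₀‖ ^ (1 / 2 : ℝ)) *
          (‖c z - ξ‖ ^ (-(3 / 2) : ℝ) + ‖c z₀ - ξ‖ ^ (-(3 / 2) : ℝ))) (Metric.ball 0 2) :=
        (hAz.1.add hAz0.1).const_mul _
      have hGi3 : IntegrableOn (fun ξ => (‖z - z₀‖ * (2 / δ ^ 2)) * Wt 1 ξ) (Metric.ball 0 2) :=
        hDW.const_mul _
      have hGi23 : IntegrableOn (fun ξ => (2 * B * ‖z - z₀‖ ^ (1 / 2 : ℝ)) *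
          (‖c z - ξ‖ ^ (-(3 / 2) : ℝ) + ‖c z₀ - ξ‖ ^ (-(3 / 2) : ℝ)) +
          (‖z - z₀‖ * (2 / δ ^ 2)) * Wt 1 ξ) (Metric.ball 0 2) := hGi2.add hGi3
      have hGi4 : IntegrableOn (fun ξ => mt z₀ * ((2 * B * ‖z - z₀‖ ^ (1 / 2 : ℝ)) *
          (‖c z - ξ‖ ^ (-(3 / 2) : ℝ) + ‖c z₀ - ξ‖ ^ (-(3 / 2) : ℝ)) +
          (‖z - z₀‖ * (2 / δ ^ 2)) * Wt 1 ξ)) (Metric.ball 0 2) := hGi23.const_mul _
      have hGi : IntegrableOn G (Metric.ball 0 2) := hGi1.add hGi4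
      have hG0 : ∀ ξ, 0 ≤ G ξ := by
        intro ξ
        have hw := EKF_wt0 ξ
        have hm := hm0.le
        positivity
      have h6 : ∫ ξ in Dk, ‖((mt z : ℝ) : ℂ) * ((Wt 1 ξ : ℂ) * q z ξ) -
            ((mt z₀ : ℝ) : ℂ) * ((Wt 1 ξ : ℂ) * q z₀ ξ)‖ ≤
            ∫ ξ in Metric.ball (0 : ℂ) 2, G ξ := by
        refine EKF_int_le hGi hG0 (fun ξ => norm_nonneg _) ?_
        filter_upwards [EKF_ae (c z), EKF_ae (c z₀),
          ae_restrict_mem Metric.isClosed_closedBall.measurableSet] with ξ hξ hξ0 hξD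
        have hx : 0 < ‖c z - ξ‖ := norm_pos_iff.mpr (sub_ne_zero.mpr (Ne.symm hξ))
        have hy : 0 < ‖c z₀ - ξ‖ := norm_pos_iff.mpr (sub_ne_zero.mpr (Ne.symm hξ0))
        have e1 : ((mt z : ℝ) : ℂ) * ((Wt 1 ξ : ℂ) * q z ξ) -
            ((mt z₀ : ℝ) : ℂ) * ((Wt 1 ξ : ℂ) * q z₀ ξ) =
            ((mt z - mt z₀ : ℝ) : ℂ) * ((Wt 1 ξ : ℂ) * q z ξ) +
            ((mt z₀ : ℝ) : ℂ) * ((Wt 1 ξ : ℂ) * (q z ξ - q z₀ ξ)) := by
          push_cast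
          ring
        rw [e1]
        refine (norm_add_le _ _).trans (add_le_add ?_ ?_)
        · rw [norm_mul, Complex.norm_real, Real.norm_eq_abs, norm_mul, Complex.norm_real,
            Real.norm_of_nonneg (EKF_wt0 ξ)]
          exact mul_le_mul_of_nonneg_left
            (mul_le_mul_of_nonneg_left (h1 z hz ξ hξD hξ) (EKF_wt0 ξ)) (abs_nonneg _)
        · rw [norm_mul, Complex.norm_real, Real.norm_of_nonneg (EKF_mt0 z₀), norm_mul,
            Complex.norm_real, Real.norm_of_nonneg (EKF_wt0 ξ)]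
          refine mul_le_mul_of_nonneg_left ?_ (EKF_mt0 z₀)
          have hq := h2 z hz z₀ hz₀ ξ hξD hξ hξ0
          have hdxy : ‖z - z₀‖ ≤ ‖c z - ξ‖ + ‖c z₀ - ξ‖ := by
            rw [← hci]
            have : c z - c z₀ = (c z - ξ) - (c z₀ - ξ) := by ring
            rw [this]
            exact norm_sub_le _ _
          by_cases hcase : ‖c z₀ - ξ‖ < δ
          · have h7 := hB2 ‖z - z₀‖ ‖c z - ξ‖ ‖c z₀ - ξ‖ hx hy (norm_nonneg _) hdxy
            have h8 : Wt 1 ξ * ‖q z ξ - q z₀ ξ‖ ≤ B * (2 * ‖z - z₀‖ ^ (1 / 2 : ℝ) *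
                (‖c z - ξ‖ ^ (-(3 / 2) : ℝ) + ‖c z₀ - ξ‖ ^ (-(3 / 2) : ℝ))) :=
              mul_le_mul (hBδ ξ hcase) (hq.trans h7) (norm_nonneg _) hB0
            have h9 : 0 ≤ ‖z - z₀‖ * (2 / δ ^ 2) * Wt 1 ξ := by
              have hw := EKF_wt0 ξ
              positivity
            have e2 : B * (2 * ‖z - z₀‖ ^ (1 / 2 : ℝ) *
                (‖c z - ξ‖ ^ (-(3 / 2) : ℝ) + ‖c z₀ - ξ‖ ^ (-(3 / 2) : ℝ))) =
                (2 * B * ‖z - z₀‖ ^ (1 / 2 : ℝ)) *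
                (‖c z - ξ‖ ^ (-(3 / 2) : ℝ) + ‖c z₀ - ξ‖ ^ (-(3 / 2) : ℝ)) := by ring
            rw [e2] at h8
            linarith
          · rw [not_lt] at hcase
            have hx2 : δ / 2 ≤ ‖c z - ξ‖ := by
              have h7 : c z₀ - ξ = (c z - ξ) - (c z - c z₀) := by ring
              have h8 : ‖c z₀ - ξ‖ ≤ ‖c z - ξ‖ + ‖c z - c z₀‖ := by
                rw [h7]; exact norm_sub_le _ _
              rw [hci] at h8
              linarith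
            have h7 : ‖z - z₀‖ / (‖c z - ξ‖ * ‖c z₀ - ξ‖) ≤ ‖z - z₀‖ * (2 / δ ^ 2) := by
              have h8 : δ / 2 * δ ≤ ‖c z - ξ‖ * ‖c z₀ - ξ‖ :=
                mul_le_mul hx2 hcase hδ.le (norm_nonneg _)
              have h9 : ‖z - z₀‖ / (‖c z - ξ‖ * ‖c z₀ - ξ‖) ≤ ‖z - z₀‖ / (δ / 2 * δ) :=
                div_le_div_of_nonneg_left (norm_nonneg _) (by positivity) h8
              refine h9.trans (le_of_eq ?_)
              field_simp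
            have h8 : Wt 1 ξ * ‖q z ξ - q z₀ ξ‖ ≤ Wt 1 ξ * (‖z - z₀‖ * (2 / δ ^ 2)) :=
              mul_le_mul_of_nonneg_left (hq.trans h7) (EKF_wt0 ξ)
            have h9 : 0 ≤ (2 * B * ‖z - z₀‖ ^ (1 / 2 : ℝ)) *
                (‖c z - ξ‖ ^ (-(3 / 2) : ℝ) + ‖c z₀ - ξ‖ ^ (-(3 / 2) : ℝ)) := by positivity
            linarith
      refine h6.trans ?_
      have e3 : ∫ ξ in Metric.ball (0 : ℂ) 2, G ξ =
          |mt z - mt z₀| * (∫ ξ in Metric.ball (0 : ℂ) 2, Wt 1 ξ * ‖c z - ξ‖⁻¹) +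
          mt z₀ * ((2 * B * ‖z - z₀‖ ^ (1 / 2 : ℝ)) *
            ((∫ ξ in Metric.ball (0 : ℂ) 2, ‖c z - ξ‖ ^ (-(3 / 2) : ℝ)) +
              ∫ ξ in Metric.ball (0 : ℂ) 2, ‖c z₀ - ξ‖ ^ (-(3 / 2) : ℝ)) +
            (‖z - z₀‖ * (2 / δ ^ 2)) * I0) := by
        simp only [G]
        rw [integral_add hGi1 hGi4, integral_const_mul, integral_const_mul]
        congr 2
        rw [integral_add hGi2 hGi3, integral_const_mul, integral_const_mul,
          integral_add hAz.1 hAz0.1]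
      rw [e3]
      simp only [g]
      rw [← hmtcz z]
      have h9 : 0 ≤ 2 * B * ‖z - z₀‖ ^ (1 / 2 : ℝ) := by positivity
      have h10 := hAz.2
      have h11 := hAz0.2
      have h12 := add_le_add h10 h11
      have h13 := mul_le_mul_of_nonneg_left h12 h9
      have h14 := mul_le_mul_of_nonneg_left h4 (abs_nonneg (mt (c z) - mt z₀))
      have h15 := mul_le_mul_of_nonneg_left (add_le_add_left h13 ((‖z - z₀‖ * (2 / δ ^ 2)) * I0))
        hm0.le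
      linarith

theorem EKF (hA : EKA_stmt) (hB : EKB_stmt) (hC : EKC_stmt) (hD : EKD_stmt) : EKF_stmt := by
  refine ⟨?_, ?_⟩
  · have h := EKF_core hA hB hC hD id (fun z w => rfl) (fun z => rfl) (fun z => rfl)
      (fun z ξ => (z - ξ)⁻¹) (fun z => (measurable_const.sub measurable_id).inv)
      (fun z _ ξ _ _ => by rw [norm_inv]; rfl)
      (fun z _ z₀ _ ξ _ hξ hξ0 => by
        have hx : z - ξ ≠ 0 := sub_ne_zero.mpr (Ne.symm hξ)
        have hy : z₀ - ξ ≠ 0 := sub_ne_zero.mpr (Ne.symm hξ0)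
        have e : (z - ξ)⁻¹ - (z₀ - ξ)⁻¹ = -((z - z₀) / ((z - ξ) * (z₀ - ξ))) := by
          field_simp
          ring
        show ‖(z - ξ)⁻¹ - (z₀ - ξ)⁻¹‖ ≤ ‖z - z₀‖ / (‖id z - ξ‖ * ‖id z₀ - ξ‖)
        rw [e, norm_neg, norm_div, norm_mul]
        rfl)
    simpa only [div_eq_mul_inv] using h
  · have hle := hC.2.2.2.2.2.2.2.2.1
    have hn : ∀ z ∈ Dk, ∀ ξ ∈ Dk, ξ ≠ conj z → 0 < ‖conj z - ξ‖ := fun z _ ξ _ hξ =>
      norm_pos_iff.mpr (sub_ne_zero.mpr (Ne.symm hξ))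
    refine EKF_core hA hB hC hD (fun z => conj z) (fun z w => ?_) (fun z => Complex.norm_conj z)
      (fun z => ?_) (fun z ξ => ξ ^ 3 / (1 - z * ξ)) (fun z => ?_) ?_ ?_
    · rw [← map_sub, Complex.norm_conj]
    · rw [← map_pow, ← Complex.norm_conj (1 - z ^ 8), map_sub, map_one]
    · exact (measurable_id.pow_const 3).div (measurable_const.sub (measurable_const.mul measurable_id))
    · intro z hz ξ hξD hξ
      have h1 := hn z hz ξ hξD hξ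
      have h2 := hle z hz ξ hξD
      have h3 : ‖ξ‖ ≤ 1 := by simpa using hξD
      show ‖ξ ^ 3 / (1 - z * ξ)‖ ≤ ‖conj z - ξ‖⁻¹
      rw [norm_div, norm_pow, div_eq_mul_inv]
      calc ‖ξ‖ ^ 3 * ‖1 - z * ξ‖⁻¹ ≤ 1 * ‖conj z - ξ‖⁻¹ :=
            mul_le_mul (pow_le_one₀ (norm_nonneg _) h3) (inv_anti₀ h1 h2)
              (inv_nonneg.mpr (norm_nonneg _)) zero_le_one
        _ = ‖conj z - ξ‖⁻¹ := one_mul _
    · intro z hz z₀ hz₀ ξ hξD hξ hξ0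
      have h1 := hn z hz ξ hξD hξ
      have h10 := hn z₀ hz₀ ξ hξD hξ0
      have h2 := hle z hz ξ hξD
      have h20 := hle z₀ hz₀ ξ hξD
      have h3 : ‖ξ‖ ≤ 1 := by simpa using hξD
      have hx : 1 - z * ξ ≠ 0 := norm_pos_iff.mp (h1.trans_le h2)
      have hy : 1 - z₀ * ξ ≠ 0 := norm_pos_iff.mp (h10.trans_le h20)
      have e : ξ ^ 3 / (1 - z * ξ) - ξ ^ 3 / (1 - z₀ * ξ) =
          (z - z₀) * ξ ^ 4 / ((1 - z * ξ) * (1 - z₀ * ξ)) := by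
        rw [div_sub_div _ _ hx hy]
        congr 1
        ring
      show ‖ξ ^ 3 / (1 - z * ξ) - ξ ^ 3 / (1 - z₀ * ξ)‖ ≤
        ‖z - z₀‖ / (‖conj z - ξ‖ * ‖conj z₀ - ξ‖)
      rw [e, norm_div, norm_mul, norm_mul, norm_pow]
      refine div_le_div₀ (norm_nonneg _) ?_ (mul_pos h1 h10)
        (mul_le_mul h2 h20 (norm_nonneg _) (norm_nonneg _))
      exact mul_le_of_le_one_right (norm_nonneg _) (pow_le_one₀ (norm_nonneg _) h3)

end

end Pool.Agent.DL
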