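import Pool.Agent.helper22.DL.SpecE1

/-! # Project dl, module ERH: the real potential as a first order system -/

set_option autoImplicit false

namespace Pool.Agent.DL

open Matrix Complex MeasureTheory Set Filter Topology
open scoped ComplexOrder Manifold ContDiff ComplexConjugate

noncomputable section

theorem ERH_fd {w : ℂ → ℝ} {z : ℂ} (hw : DifferentiableAt ℝ w z) (v : ℂ) :
    fderiv ℝ (fun x => (w x : ℂ)) z v = ((fderiv ℝ w z v : ℝ) : ℂ) := by
  have h1 : HasFDerivAt (fun x => (w x : ℂ)) (Complex.ofRealCLM.comp (fderiv ℝ w z)) z :=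
    Complex.ofRealCLM.hasFDerivAt.comp z hw.hasFDerivAt
  rw [h1.fderiv]
  rfl

theorem ERH_conj {w : ℂ → ℝ} {z : ℂ} (hw : DifferentiableAt ℝ w z) :
    dzb (fun x => (w x : ℂ)) z = conj (dz (fun x => (w x : ℂ)) z) := by
  unfold dz dzb
  rw [ERH_fd hw, ERH_fd hw, map_div₀, map_sub, map_mul, conj_ofReal, conj_ofReal, conj_I, map_ofNat]
  ring

theorem ERH_re {h : ℂ → ℂ} {h' z : ℂ} (hh : HasDerivAt h h' z) :
    HasFDerivAt (fun x => (h x).re)
      (Complex.reCLM.comp ((ContinuousLinearMap.toSpanSingleton ℂ h').restrictScalars ℝ)) z :=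
  Complex.reCLM.hasFDerivAt.comp z (hh.hasFDerivAt.restrictScalars ℝ)

theorem ERH_dz {u T : ℂ → ℝ} {h : ℂ → ℂ} {h' z : ℂ} (hT : DifferentiableAt ℝ T z)
    (hh : HasDerivAt h h' z) (hu : u =ᶠ[𝓝 z] fun x => T x + (h x).re) :
    DifferentiableAt ℝ u z ∧
    dz (fun x => (u x : ℂ)) z = dz (fun x => (T x : ℂ)) z + h' / 2 := by
  have h1 : HasFDerivAt u (fderiv ℝ T z +
      Complex.reCLM.comp ((ContinuousLinearMap.toSpanSingleton ℂ h').restrictScalars ℝ)) z :=
    (hT.hasFDerivAt.add (ERH_re hh)).congr_of_eventuallyEq hu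
  refine ⟨h1.differentiableAt, ?_⟩
  have hv : ∀ v : ℂ, fderiv ℝ u z v = fderiv ℝ T z v + (v * h').re := by
    intro v
    rw [h1.fderiv]
    simp [ContinuousLinearMap.toSpanSingleton_apply]
  unfold dz
  rw [ERH_fd h1.differentiableAt, ERH_fd h1.differentiableAt, ERH_fd hT, ERH_fd hT, hv, hv]
  push_cast
  have e1 : ((1 * h').re : ℂ) - I * ((I * h').re : ℂ) = h' := by
    apply Complex.ext <;> simp
  linear_combination e1 / 2

theorem ERH (hF : ERF_stmt) (hC : ERC_stmt) (hG : ERG_stmt) : ERH_stmt := by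
  intro u F h z₀ ρ M hρ hm hb hh hu
  obtain ⟨hT1, hT2⟩ := hF F z₀ ρ M hρ hm hb
  have hTd : ∀ z, DifferentiableAt ℝ (TL F (Metric.ball z₀ ρ)) z := fun z =>
    (hT1.differentiable (by norm_num)) z
  have hhd : ∀ z ∈ Metric.ball z₀ ρ, HasDerivAt h (deriv h z) z := fun z hz =>
    ((hh z hz).differentiableAt (Metric.isOpen_ball.mem_nhds hz)).hasDerivAt
  have key : ∀ z ∈ Metric.ball z₀ ρ, DifferentiableAt ℝ u z ∧
      dz (fun x => (u x : ℂ)) z = TC (fun ξ => (F ξ : ℂ)) (Metric.ball z₀ ρ) z + deriv h z / 2 := by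
    intro z hz
    have h1 := ERH_dz (hTd z) (hhd z hz)
      (Filter.eventuallyEq_of_mem (Metric.isOpen_ball.mem_nhds hz) (fun x hx => hu x hx))
    rw [hT2 z] at h1
    exact h1
  have hhc : ContDiffOn ℝ 1 (fun z => (h z).re) (Metric.ball z₀ ρ) := by
    have h1 : ContDiffOn ℂ 1 h (Metric.ball z₀ ρ) := hh.contDiffOn Metric.isOpen_ball
    exact Complex.reCLM.contDiff.comp_contDiffOn (h1.restrict_scalars ℝ)
  have huc : ContDiffOn ℝ 1 u (Metric.ball z₀ ρ) :=
    (hT1.contDiffOn.add hhc).congr hu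
  have hmC : AEStronglyMeasurable (fun ξ => (F ξ : ℂ)) (volume.restrict (Metric.ball z₀ ρ)) :=
    Complex.continuous_ofReal.comp_aestronglyMeasurable hm
  have hbC : ∀ z ∈ Metric.ball z₀ ρ, ‖(F z : ℂ)‖ ≤ M := fun z hz => by
    rw [Complex.norm_real]; exact hb z hz
  have hdh : DifferentiableOn ℂ (deriv h) (Metric.ball z₀ ρ) := hh.deriv Metric.isOpen_ball
  refine ⟨huc, ⟨?_, fun z => deriv h z / 2, hdh.div_const 2, fun z hz => (key z hz).2⟩, ?_⟩
  · exact IntegrableOn.of_bound measure_ball_lt_top hmC M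
      ((ae_restrict_mem measurableSet_ball).mono hbC)
  · intro ρ' hρ' hlt
    obtain ⟨C, hC⟩ := hC ρ M hρ
    obtain ⟨-, hC1, hC2⟩ := hC (fun ξ => (F ξ : ℂ)) z₀ hmC hbC
    have hsub : Metric.closedBall z₀ ρ' ⊆ Metric.ball z₀ ρ := Metric.closedBall_subset_ball hlt
    obtain ⟨B1, hB1⟩ := (isCompact_closedBall z₀ ρ').exists_bound_of_continuousOn
      (hdh.continuousOn.mono hsub)
    have hddh : DifferentiableOn ℂ (deriv (deriv h)) (Metric.ball z₀ ρ) :=
      hdh.deriv Metric.isOpen_ball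
    obtain ⟨B2, hB2⟩ := (isCompact_closedBall z₀ ρ').exists_bound_of_continuousOn
      (hddh.continuousOn.mono hsub)
    have hz0 : z₀ ∈ Metric.closedBall z₀ ρ' := Metric.mem_closedBall_self hρ'.le
    have hC0 : 0 ≤ C := (norm_nonneg _).trans (hC1 z₀)
    have hB10 : 0 ≤ B1 := (norm_nonneg _).trans (hB1 z₀ hz0)
    have hB20 : 0 ≤ B2 := (norm_nonneg _).trans (hB2 z₀ hz0)
    have hlip : ∀ z ∈ Metric.closedBall z₀ ρ', ∀ z' ∈ Metric.closedBall z₀ ρ',
        ‖deriv h z - deriv h z'‖ ≤ B2 * ‖z - z'‖ := by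
      intro z hz z' hz'
      exact (convex_closedBall z₀ ρ').norm_image_sub_le_of_norm_deriv_le
        (fun x hx => (hdh x (hsub hx)).differentiableAt (Metric.isOpen_ball.mem_nhds (hsub hx)))
        hB2 hz' hz
    have hbs : Metric.ball z₀ ρ' ⊆ Metric.closedBall z₀ ρ' := Metric.ball_subset_closedBall
    set S : ℝ := (2 * ρ') ^ (1 / 2 : ℝ) with hS
    have hS0 : 0 ≤ S := Real.rpow_nonneg (by linarith) _
    refine hG (fun w => (u w : ℂ)) (fun ξ => conj (dz (fun w => (u w : ℂ)) ξ)) z₀ ρ'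
      (C + B1 / 2 + B2 / 2 * S) (1 / 2) hρ' (by norm_num) (by norm_num) ?_ ?_ ?_ ?_
    · exact Complex.ofRealCLM.contDiff.comp_contDiffOn (huc.mono (hbs.trans hsub))
    · intro z hz
      exact ERH_conj (key z (hsub (hbs hz))).1
    · intro z hz
      have hz1 := hsub (hbs hz)
      rw [Complex.norm_conj, (key z hz1).2]
      refine (norm_add_le _ _).trans ?_
      have h1 := hC1 z
      have h2 := hB1 z (hbs hz)
      rw [norm_div, Complex.norm_ofNat]
      have h3 : 0 ≤ B2 / 2 * S := by positivity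
      linarith
    · intro z hz z' hz'
      have hz1 := hsub (hbs hz)
      have hz1' := hsub (hbs hz')
      rw [← map_sub, Complex.norm_conj, (key z hz1).2, (key z' hz1').2]
      have e1 : TC (fun ξ => (F ξ : ℂ)) (Metric.ball z₀ ρ) z + deriv h z / 2 -
          (TC (fun ξ => (F ξ : ℂ)) (Metric.ball z₀ ρ) z' + deriv h z' / 2) =
          (TC (fun ξ => (F ξ : ℂ)) (Metric.ball z₀ ρ) z -
            TC (fun ξ => (F ξ : ℂ)) (Metric.ball z₀ ρ) z') + (deriv h z - deriv h z') / 2 := by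
        ring
      rw [e1]
      refine (norm_add_le _ _).trans ?_
      rw [norm_div, Complex.norm_ofNat]
      have h1 := hC2 z z'
      have h2 := hlip z (hbs hz) z' (hbs hz')
      have hd : ‖z - z'‖ ≤ 2 * ρ' := by
        have h3 := Metric.mem_ball.mp hz
        have h4 := Metric.mem_ball.mp hz'
        rw [← dist_eq_norm]
        have h5 := dist_triangle_right z z' z₀
        linarith
      have h3 : ‖z - z'‖ ≤ S * ‖z - z'‖ ^ (1 / 2 : ℝ) := by
        have h4 : ‖z - z'‖ = ‖z - z'‖ ^ (1 / 2 : ℝ) * ‖z - z'‖ ^ (1 / 2 : ℝ) := by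
          rw [← Real.rpow_add_of_nonneg (norm_nonneg _) (by norm_num) (by norm_num)]
          norm_num
        calc ‖z - z'‖ = ‖z - z'‖ ^ (1 / 2 : ℝ) * ‖z - z'‖ ^ (1 / 2 : ℝ) := h4
          _ ≤ S * ‖z - z'‖ ^ (1 / 2 : ℝ) :=
            mul_le_mul_of_nonneg_right (Real.rpow_le_rpow (norm_nonneg _) hd (by norm_num))
              (Real.rpow_nonneg (norm_nonneg _) _)
      have h5 : B2 * ‖z - z'‖ ≤ B2 * (S * ‖z - z'‖ ^ (1 / 2 : ℝ)) :=
        mul_le_mul_of_nonneg_left h3 hB20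
      have h6 : 0 ≤ B1 / 2 * ‖z - z'‖ ^ (1 / 2 : ℝ) :=
        mul_nonneg (by linarith) (Real.rpow_nonneg (norm_nonneg _) _)
      have e2 : (C + B1 / 2 + B2 / 2 * S) * ‖z - z'‖ ^ (1 / 2 : ℝ) =
          C * ‖z - z'‖ ^ (1 / 2 : ℝ) + B1 / 2 * ‖z - z'‖ ^ (1 / 2 : ℝ) +
            B2 * (S * ‖z - z'‖ ^ (1 / 2 : ℝ)) / 2 := by ring
      rw [e2]
      linarith

end

end Pool.Agent.DL
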