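import Pool.Agent.helper22.DL.SpecE3

/-! # Project dl, module ETG: the harmonic metric of `BB` -/

set_option autoImplicit false

namespace Pool.Agent.DL

open Matrix Complex MeasureTheory Set Filter Topology
open scoped ComplexOrder Manifold ContDiff ComplexConjugate

noncomputable section

theorem ETG_congr {n : ℕ} {Ω : Set ℂ} {A A' H : ℂ → Matrix (Fin n) (Fin n) ℂ} {W W' : ℂ → ℝ}
    (h : LH n Ω A W H) (hA : ∀ z ∈ Ω, A' z = A z) (hW : ∀ z ∈ Ω, W' z = W z) : LH n Ω A' W' H :=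
  ⟨h.pos, h.smooth, fun z hz => by rw [hA z hz, hW z hz]; exact h.eq z hz⟩

/-- the Higgs field in the two planes -/
def ETG_A (a t : ℝ) (j : Bool) (z : ℂ) : Matrix (Fin 3) (Fin 3) ℂ :=
  !![sA a t j z, qA a t j z, 0; 1, sA a t j z, 0; 0, 0, -2 * sA a t j z]

/-- the metric in the two planes -/
def ETG_H (L : Bool → ℂ → ℝ) (j : Bool) (z : ℂ) : Matrix (Fin 3) (Fin 3) ℂ :=
  diagonal ![(Real.exp ((L j z + Real.log 2) / 2) : ℂ),
    (Real.exp (-((L j z + Real.log 2) / 2)) : ℂ), 1]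

theorem ETG_diag (z w : ℂ) (α β : ℝ) :
    (diagonal ![z, w, 1])ᴴ * diagonal ![(α : ℂ), (β : ℂ), 1] * diagonal ![z, w, 1] =
      diagonal ![((‖z‖ ^ 2 * α : ℝ) : ℂ), ((‖w‖ ^ 2 * β : ℝ) : ℂ), 1] := by
  rw [diagonal_conjTranspose, diagonal_mul_diagonal, diagonal_mul_diagonal]
  congr 1
  funext i
  have h1 : ∀ x : ℂ, ∀ γ : ℝ, conj x * (γ : ℂ) * x = ((‖x‖ ^ 2 * γ : ℝ) : ℂ) := by
    intro x γ
    have := Complex.conj_mul' x
    push_cast
    rw [← this]
    ring
  fin_cases i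
  · exact h1 z α
  · exact h1 w β
  · simp

theorem ETG_det (L : Bool → ℂ → ℝ) (j : Bool) (z : ℂ) : (ETG_H L j z).det = 1 := by
  unfold ETG_H
  rw [det_diagonal, Fin.prod_univ_three]
  simp only [Matrix.cons_val_zero, Matrix.cons_val_one, Matrix.cons_val]
  rw [mul_one, ← Complex.ofReal_mul, ← Real.exp_add, add_neg_cancel, Real.exp_zero,
    Complex.ofReal_one]

theorem ETG_exp (x : ℝ) (z : ℂ) (hz : z ≠ 0) :
    Real.exp (x + 2 * Real.log ‖z‖) = ‖z‖ ^ 2 * Real.exp x := by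
  have h0 : 0 < ‖z‖ := norm_pos_iff.mpr hz
  have h1 : 2 * Real.log ‖z‖ = Real.log (‖z‖ ^ 2) := by rw [Real.log_pow]; norm_num
  rw [Real.exp_add, h1, Real.exp_log (by positivity)]
  ring

/-- gluing: `L' w = L z + 4 log ‖z‖`, `z w = 1` -/
theorem ETG_glue {l l' : ℝ} {z w : ℂ} (hzw : z * w = 1) (h : l' = l + 4 * Real.log ‖z‖) :
    diagonal ![(Real.exp ((l' + Real.log 2) / 2) : ℂ), (Real.exp (-((l' + Real.log 2) / 2)) : ℂ), 1] =
      (diagonal ![z, w, 1])ᴴ * diagonal ![(Real.exp ((l + Real.log 2) / 2) : ℂ),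
        (Real.exp (-((l + Real.log 2) / 2)) : ℂ), 1] * diagonal ![z, w, 1] := by
  have hz : z ≠ 0 := left_ne_zero_of_mul_eq_one hzw
  have hw : w ≠ 0 := right_ne_zero_of_mul_eq_one hzw
  have hlog : Real.log ‖w‖ = -Real.log ‖z‖ := by
    have h1 : ‖w‖ = ‖z‖⁻¹ := by
      rw [← norm_inv]
      congr 1
      exact (inv_eq_of_mul_eq_one_right hzw).symm
    rw [h1, Real.log_inv]
  rw [ETG_diag, ← ETG_exp _ z hz, ← ETG_exp _ w hw, hlog, h]
  congr 4 <;> ring_nf

theorem ETG_sA (a t : ℝ) (j : Bool) : Differentiable ℂ (sA a t j) := by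
  cases j
  · show Differentiable ℂ (fun z => ss t (a * z))
    unfold ss
    fun_prop
  · show Differentiable ℂ (fun z => I * t * a / 3 * z)
    fun_prop

theorem ETG_qA (a t : ℝ) (j : Bool) : Differentiable ℂ (qA a t j) := by
  cases j
  · show Differentiable ℂ (fun z => qq t (a * z))
    unfold qq
    fun_prop
  · show Differentiable ℂ (fun z => (t : ℂ) ^ 2 * (z ^ 4 - (a : ℂ) ^ 2 * z ^ 2))
    fun_prop

theorem ETG_psi (h02 : X02_stmt) (h10 : X10_stmt) (d : ℂ) :
    DifferentiableOn ℂ (psi d) (Metric.ball 0 1) := by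
  have hr4 := h02.2.2.2.2.2
  have he : ∀ y ∈ Metric.ball (0 : ℂ) 1, 1 + y ^ 2 ≠ 0 ∧ mm (y ^ 2) ∈ slitPlane := fun y hy =>
    h10.2.2.2.2.2 y (by simpa using hy)
  have h1 : DifferentiableOn ℂ (fun y : ℂ => mm (y ^ 2)) (Metric.ball 0 1) := by
    intro y hy
    have h2 := (he y hy).1
    have h3 : DifferentiableAt ℂ (fun y : ℂ => (1 - y ^ 2) / (1 + y ^ 2)) y :=
      DifferentiableAt.div (by fun_prop) (by fun_prop) h2
    exact h3.differentiableWithinAt
  have h4 : DifferentiableOn ℂ (fun y : ℂ => r4 (mm (y ^ 2))) (Metric.ball 0 1) :=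
    hr4.comp h1 (fun y hy => (he y hy).2)
  exact h4.const_mul d

theorem ETG (hF : ETF_stmt) (hC : ETC_stmt) (hX : EX_stmt) (h02 : X02_stmt) (h10 : X10_stmt) :
    ETG_stmt := by
  intro cs ch hG hH hV a t ha ht hL
  obtain ⟨L, hL⟩ := hL
  obtain ⟨-, -, -, -, -, -, -, -, -, hE0, hE1, -⟩ := hX XT (DX ch) hV a t (by linarith) ht
  have hloc : ∀ j : Bool, ∀ e ∈ atlas ℂ XT,
      LH 3 (e.target ∩ e.symm ⁻¹' uZ) (fun z => ETG_A a t j (fZ (e.symm z)))
        (fun z => a ^ 2 * ‖eta0 e (e.symm z)‖ ^ 2) (fun z => ETG_H L j (fZ (e.symm z))) ∧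
      LH 3 (e.target ∩ e.symm ⁻¹' uN) (fun z => ETG_A a t j (fN (e.symm z)))
        (fun z => a ^ 2 * ‖eta1 e (e.symm z)‖ ^ 2) (fun z => ETG_H L j (fN (e.symm z))) := by
    intro j
    refine hC cs ch hG hH 3 (a ^ 2) (ETG_A a t j) (ETG_H L j) ?_ ?_
    · have hNs : IsOpen Ns := isOpen_ne_fun (by fun_prop) continuous_const
      exact hF Ns (Wt (a ^ 2)) (qA a t j) (sA a t j) (L j) hNs (ETG_qA a t j).differentiableOn
        (ETG_sA a t j).differentiableOn (hL.sy j)
    · intro d hd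
      have hp := ETG_psi h02 h10 d
      exact hF (Metric.ball 0 1) (Wr (a ^ 2)) (fun y => qA a t j (psi d y))
        (fun y => sA a t j (psi d y)) (fun y => L j (psi d y)) Metric.isOpen_ball
        ((ETG_qA a t j).comp_differentiableOn hp)
        ((ETG_sA a t j).comp_differentiableOn hp) (hL.ro j d hd)
  have hmul : ∀ x ∈ (uZ ∩ uN : Set XT), fZ x * fN x = 1 := hV.mul
  have hgl : ∀ x ∈ (uZ ∩ uN : Set XT), L true (fN x) = L false (fZ x) + 4 * Real.log ‖fZ x‖ := by
    intro x hx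
    have h1 := hmul x hx
    have hz : fZ x ≠ 0 := left_ne_zero_of_mul_eq_one h1
    have h2 := hL.gL false (fZ x) hz
    have h3 : (fZ x)⁻¹ = fN x := inv_eq_of_mul_eq_one_right h1
    rw [h3] at h2
    show L (!false) (fN x) = _
    linarith
  let H : Bool → XT → Matrix (Fin 3) (Fin 3) ℂ := fun i x => match i with
    | false => ETG_H L false (fZ x)
    | true => ETG_H L true (fN x)
  refine ⟨H, ⟨?_, ?_⟩, ?_⟩
  · intro i j x hx
    match i, j with
    | false, false =>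
      show ETG_H L false (fZ x) = (1 : Matrix (Fin 3) (Fin 3) ℂ)ᴴ * ETG_H L false (fZ x) * 1
      rw [conjTranspose_one, one_mul, mul_one]
    | true, true =>
      show ETG_H L true (fN x) = (1 : Matrix (Fin 3) (Fin 3) ℂ)ᴴ * ETG_H L true (fN x) * 1
      rw [conjTranspose_one, one_mul, mul_one]
    | false, true => exact ETG_glue (hmul x hx) (hgl x hx)
    | true, false =>
      have hx' : x ∈ (uZ ∩ uN : Set XT) := ⟨hx.2, hx.1⟩
      have h1 := hmul x hx'
      have h2 := hgl x hx'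
      have h3 : Real.log ‖fN x‖ = -Real.log ‖fZ x‖ := by
        have h4 : ‖fN x‖ = ‖fZ x‖⁻¹ := by
          rw [← norm_inv]
          congr 1
          exact (inv_eq_of_mul_eq_one_right h1).symm
        rw [h4, Real.log_inv]
      exact ETG_glue (z := fN x) (w := fZ x) (by rw [mul_comm]; exact h1) (by rw [h3, h2]; ring)
  · intro i e he
    match i with
    | false =>
      refine ETG_congr (hloc false e he).1 ?_ ?_
      · intro z hz
        obtain ⟨h1, h2⟩ := hE0 (e.symm z) hz.2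
        show !![quo (sF (DX ch) a t) ((cov (DX ch) a).η false) 1 (e.symm z),
          quo (qF (DX ch) a t) ((cov (DX ch) a).η false) 2 (e.symm z), 0;
          1, quo (sF (DX ch) a t) ((cov (DX ch) a).η false) 1 (e.symm z), 0; 0, 0,
          -2 * quo (sF (DX ch) a t) ((cov (DX ch) a).η false) 1 (e.symm z)] = _
        rw [h1, h2]
        rfl
      · intro z hz
        show ‖(a : ℂ) * eta0 e (e.symm z)‖ ^ 2 = a ^ 2 * ‖eta0 e (e.symm z)‖ ^ 2
        rw [norm_mul, Complex.norm_real, mul_pow, Real.norm_eq_abs, sq_abs]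
    | true =>
      refine ETG_congr (hloc true e he).2 ?_ ?_
      · intro z hz
        obtain ⟨h1, h2⟩ := hE1 (e.symm z) hz.2
        show !![quo (sF (DX ch) a t) ((cov (DX ch) a).η true) 1 (e.symm z),
          quo (qF (DX ch) a t) ((cov (DX ch) a).η true) 2 (e.symm z), 0;
          1, quo (sF (DX ch) a t) ((cov (DX ch) a).η true) 1 (e.symm z), 0; 0, 0,
          -2 * quo (sF (DX ch) a t) ((cov (DX ch) a).η true) 1 (e.symm z)] = _
        rw [h1, h2]
        rfl
      · intro z hz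
        show ‖(a : ℂ) * eta1 e (e.symm z)‖ ^ 2 = a ^ 2 * ‖eta1 e (e.symm z)‖ ^ 2
        rw [norm_mul, Complex.norm_real, mul_pow, Real.norm_eq_abs, sq_abs]
  · intro i x _
    match i with
    | false => exact ETG_det L false (fZ x)
    | true => exact ETG_det L true (fN x)

end

end Pool.Agent.DL
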