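import Pool.Agent.helper67.DL.SpecX

set_option autoImplicit false

/-! # Module X15 of project dl: `η0` is a holomorphic form -/

namespace Pool.Agent.DL

open Matrix Complex
open scoped ComplexOrder Manifold ContDiff

noncomputable section

theorem X15_some {p : P1} (h : p ≠ OnePoint.infty) : ∃ z : ℂ, p = OnePoint.some z := by
  induction p using OnePoint.rec with
  | infty => exact absurd rfl h
  | coe z => exact ⟨z, rfl⟩

/-- Points with finite coordinates. -/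
theorem X15_fin {p : XT} (h1 : p ∈ uZ) (h2 : p ∈ uY) :
    ∃ z y : ℂ, p.1 = (OnePoint.some z, OnePoint.some y) ∧ (1 + z ^ 4) * (1 + y ^ 2) = 2 ∧
      fZ p = z ∧ fY p = y ∧ fV p = y⁻¹ := by
  rcases p.2 with ⟨z, y, h, h'⟩ | ⟨y, h, -⟩ | ⟨z, h, -⟩
  · refine ⟨z, y, h, h', ?_, ?_, ?_⟩
    · unfold fZ
      rw [h]
      rfl
    · unfold fY
      rw [h]
      rfl
    · unfold fV
      rw [h]
      rfl
  · exfalso
    apply h1
    rw [h]
  · exfalso
    apply h2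
    rw [h]

theorem X15_inf {p : XT} (h1 : p ∈ uZ) (h2 : p.1.2 = OnePoint.infty) :
    ∃ z : ℂ, p.1 = (OnePoint.some z, OnePoint.infty) ∧ 1 + z ^ 4 = 0 ∧ fZ p = z ∧ fV p = 0 := by
  rcases p.2 with ⟨z, y, h, h'⟩ | ⟨y, h, -⟩ | ⟨z, h, h'⟩
  · rw [h] at h2
    exact absurd h2 (OnePoint.coe_ne_infty y)
  · exfalso
    apply h1
    rw [h]
  · refine ⟨z, h, h', ?_, ?_⟩
    · unfold fZ
      rw [h]
      rfl
    · unfold fV
      rw [h]
      rfl

theorem X15_rel {p : XT} (h1 : p ∈ uZ) (h2 : p ∈ uY) : (1 + fZ p ^ 4) * (1 + fY p ^ 2) = 2 := by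
  obtain ⟨z, y, -, h, h3, h4, -⟩ := X15_fin h1 h2
  rw [h3, h4, h]

theorem X15_YV {p : XT} (h1 : p ∈ uZ) (h2 : p ∈ uY) (h3 : p ∈ uV) :
    fY p ≠ 0 ∧ fV p = (fY p)⁻¹ := by
  obtain ⟨z, y, h, -, -, h5, h6⟩ := X15_fin h1 h2
  rw [h5, h6]
  refine ⟨?_, rfl⟩
  intro hy
  apply h3
  show p.1.2 = OnePoint.some 0
  rw [h, hy]

theorem X15_Z {p : XT} (h1 : p ∈ uZ) (h2 : p ∈ uN) : fZ p ≠ 0 := by
  obtain ⟨z, hz⟩ := X15_some (p := p.1.1) h1
  have h : fZ p = z := by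
    unfold fZ
    rw [hz]
    rfl
  rw [h]
  intro h0
  apply h2
  show p.1.1 = OnePoint.some 0
  rw [hz, h0]

theorem X15_V {p : XT} (h1 : p ∈ uZ) (h2 : p ∈ uV) : 1 + fV p ^ 2 ≠ 0 := by
  by_cases h3 : p.1.2 = OnePoint.infty
  · obtain ⟨z, -, -, -, h4⟩ := X15_inf h1 h3
    rw [h4]
    norm_num
  · obtain ⟨h4, h5⟩ := X15_YV h1 h3 h2
    have h6 := X15_rel h1 h3
    rw [h5]
    intro h0
    have h7 : 1 + fY p ^ 2 = 0 := by
      have : (1 + (fY p)⁻¹ ^ 2) * fY p ^ 2 = 1 + fY p ^ 2 := by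
        field_simp
        ring
      rw [← this, h0, zero_mul]
    rw [h7, mul_zero] at h6
    exact two_ne_zero h6.symm

/-- The three local forms. -/
def X15_a (p : XT) : ℂ := ((1 + fZ p ^ 4) * fY p)⁻¹
@[inherit_doc X15_a] def X15_b (p : XT) : ℂ := -(2 * fZ p ^ 3 * (1 + fY p ^ 2))⁻¹
@[inherit_doc X15_a] def X15_c (p : XT) : ℂ := (2 * fZ p ^ 3 * (1 + fV p ^ 2))⁻¹

section
variable [ChartedSpace ℂ XT]

theorem X15_diff {U : Set XT} {f : XT → ℂ} (hf : HoloOn f U) (hU : IsOpen U)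
    {e : OpenPartialHomeomorph XT ℂ} (he : e ∈ atlas ℂ XT) {x : XT} (hx : x ∈ e.source) (hxU : x ∈ U) :
    DifferentiableAt ℂ (fun z => f (e.symm z)) (e x) := by
  refine (hf e he).differentiableAt ?_
  refine (e.isOpen_inter_preimage_symm hU).mem_nhds ⟨e.map_source hx, ?_⟩
  show e.symm (e x) ∈ U
  rw [e.left_inv hx]
  exact hxU

omit [ChartedSpace ℂ XT] in
theorem X15_ev {U : Set XT} (hU : IsOpen U) {e : OpenPartialHomeomorph XT ℂ} {x : XT}
    (hx : x ∈ e.source) (hxU : x ∈ U) : ∀ᶠ z in nhds (e x), e.symm z ∈ U := by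
  filter_upwards [(e.isOpen_inter_preimage_symm hU).mem_nhds
    ⟨e.map_source hx, show e.symm (e x) ∈ U by rw [e.left_inv hx]; exact hxU⟩] with z hz
  exact hz.2

/-- Derivative of the equation. -/
theorem X15_d1 (hH : HolX) {e : OpenPartialHomeomorph XT ℂ} (he : e ∈ atlas ℂ XT) {x : XT}
    (hx : x ∈ e.source) (h1 : x ∈ uZ) (h2 : x ∈ uY) :
    4 * fZ x ^ 3 * dd fZ e x * (1 + fY x ^ 2) + (1 + fZ x ^ 4) * (2 * fY x * dd fY e x) = 0 := by
  have a1 := (X15_diff hH.hZ hH.oZ he hx h1).hasDerivAt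
  have a2 := (X15_diff hH.hY hH.oY he hx h2).hasDerivAt
  have a3 := ((a1.pow 4).const_add 1).mul ((a2.pow 2).const_add 1)
  have a4 : HasDerivAt (fun _ : ℂ => (2 : ℂ)) 0 (e x) := hasDerivAt_const _ _
  have a5 : (fun _ : ℂ => (2 : ℂ)) =ᶠ[nhds (e x)]
      fun z => (1 + fZ (e.symm z) ^ 4) * (1 + fY (e.symm z) ^ 2) := by
    filter_upwards [X15_ev hH.oZ hx h1, X15_ev hH.oY hx h2] with z hz1 hz2
    exact (X15_rel hz1 hz2).symm
  have a6 := a3.unique (a4.congr_of_eventuallyEq a5.symm)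
  simp only [e.left_inv hx] at a6
  unfold dd
  rw [← a6]
  simp only [Pi.pow_apply, e.left_inv hx]
  ring

theorem X15_d2 (hH : HolX) {e : OpenPartialHomeomorph XT ℂ} (he : e ∈ atlas ℂ XT) {x : XT}
    (hx : x ∈ e.source) (h1 : x ∈ uZ) (h2 : x ∈ uY) (h3 : x ∈ uV) :
    dd fY e x * fV x + fY x * dd fV e x = 0 := by
  have a1 := (X15_diff hH.hV hH.oV he hx h3).hasDerivAt
  have a2 := (X15_diff hH.hY hH.oY he hx h2).hasDerivAt
  have a3 := a2.mul a1
  have a4 : HasDerivAt (fun _ : ℂ => (1 : ℂ)) 0 (e x) := hasDerivAt_const _ _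
  have a5 : (fun _ : ℂ => (1 : ℂ)) =ᶠ[nhds (e x)]
      fun z => fY (e.symm z) * fV (e.symm z) := by
    filter_upwards [X15_ev hH.oZ hx h1, X15_ev hH.oY hx h2, X15_ev hH.oV hx h3] with z hz1 hz2 hz3
    obtain ⟨k1, k2⟩ := X15_YV hz1 hz2 hz3
    rw [k2, mul_inv_cancel₀ k1]
  have a6 := a3.unique (a4.congr_of_eventuallyEq a5.symm)
  simp only [e.left_inv hx] at a6
  unfold dd
  exact a6

theorem X15_AB (hH : HolX) {e : OpenPartialHomeomorph XT ℂ} (he : e ∈ atlas ℂ XT) {x : XT}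
    (hx : x ∈ e.source) (h1 : x ∈ uZ) (h0 : x ∈ uN) (h2 : x ∈ uY) (h3 : x ∈ uV) :
    X15_a x * dd fZ e x = X15_b x * dd fY e x := by
  have r1 := X15_rel h1 h2
  have r2 := X15_d1 hH he hx h1 h2
  obtain ⟨r3, -⟩ := X15_YV h1 h2 h3
  have r4 := X15_Z h1 h0
  have r5 : 1 + fZ x ^ 4 ≠ 0 := by
    intro h
    rw [h, zero_mul] at r1
    exact two_ne_zero r1.symm
  have r6 : 1 + fY x ^ 2 ≠ 0 := by
    intro h
    rw [h, mul_zero] at r1
    exact two_ne_zero r1.symm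
  unfold X15_a X15_b
  field_simp
  linear_combination (1 / 2) * r2

theorem X15_BC (hH : HolX) {e : OpenPartialHomeomorph XT ℂ} (he : e ∈ atlas ℂ XT) {x : XT}
    (hx : x ∈ e.source) (h1 : x ∈ uZ) (h0 : x ∈ uN) (h2 : x ∈ uY) (h3 : x ∈ uV) :
    X15_b x * dd fY e x = X15_c x * dd fV e x := by
  have r1 := X15_rel h1 h2
  have r2 := X15_d2 hH he hx h1 h2 h3
  obtain ⟨r3, r7⟩ := X15_YV h1 h2 h3
  have r4 := X15_Z h1 h0
  have r6 : 1 + fY x ^ 2 ≠ 0 := by
    intro h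
    rw [h, mul_zero] at r1
    exact two_ne_zero r1.symm
  have r8 : 1 + fV x ^ 2 = (1 + fY x ^ 2) / fY x ^ 2 := by
    rw [r7]
    field_simp
    ring
  have r9 : dd fY e x = -(fY x ^ 2 * dd fV e x) := by
    rw [r7] at r2
    field_simp at r2
    linear_combination r2
  unfold X15_b X15_c
  rw [r8, r9]
  field_simp

end

theorem X15 (hX13 : X13_stmt) (hX14 : X14_stmt) : X15_stmt := by
  intro cs hH
  obtain ⟨m1, m2, m3, -, -, -, m7⟩ := hX14 XT
  have dZ := hX13 XT hH.man uZ fZ hH.oZ hH.hZ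
  have dY := hX13 XT hH.man uY fY hH.oY hH.hY
  have dV := hX13 XT hH.man uV fV hH.oV hH.hV
  have oA : IsOpen (uZ ∩ (uY ∩ uV)) := hH.oZ.inter (hH.oY.inter hH.oV)
  have oB : IsOpen (uZ ∩ (uN ∩ uY)) := hH.oZ.inter (hH.oN.inter hH.oY)
  have oC : IsOpen (uZ ∩ (uN ∩ uV)) := hH.oZ.inter (hH.oN.inter hH.oV)
  have hres : ∀ (f : XT → ℂ) (U V : Set XT), V ⊆ U → HoloOn f U → HoloOn f V := fun f U V h1 h2 =>
    m3 U V f h1 h2
  have hA : IsDif (uZ ∩ (uY ∩ uV)) 1 (fun e x => X15_a x * dd fZ e x) := by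
    refine m1 _ 1 _ _ oA ?_ (m2 _ _ 1 _ Set.inter_subset_left dZ)
    intro e he
    have k1 := hres fZ uZ (uZ ∩ (uY ∩ uV)) Set.inter_subset_left hH.hZ e he
    have k2 := hres fY uY (uZ ∩ (uY ∩ uV)) (Set.inter_subset_right.trans Set.inter_subset_left) hH.hY e he
    unfold X15_a
    refine (((k1.pow 4).const_add 1).mul k2).inv ?_
    rintro z ⟨-, hz1, hz2, hz3⟩
    refine mul_ne_zero ?_ (X15_YV hz1 hz2 hz3).1
    have r1 := X15_rel hz1 hz2
    intro h
    change 1 + fZ (e.symm z) ^ 4 = 0 at h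
    rw [h, zero_mul] at r1
    exact two_ne_zero r1.symm
  have hB : IsDif (uZ ∩ (uN ∩ uY)) 1 (fun e x => X15_b x * dd fY e x) := by
    refine m1 _ 1 _ _ oB ?_ (m2 _ _ 1 _ (Set.inter_subset_right.trans Set.inter_subset_right) dY)
    intro e he
    have k1 := hres fZ uZ (uZ ∩ (uN ∩ uY)) Set.inter_subset_left hH.hZ e he
    have k2 := hres fY uY (uZ ∩ (uN ∩ uY)) (Set.inter_subset_right.trans Set.inter_subset_right) hH.hY e he
    unfold X15_b
    refine ((((k1.pow 3).const_mul 2).mul ((k2.pow 2).const_add 1)).inv ?_).neg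
    rintro z ⟨-, hz1, hz0, hz2⟩
    have r1 := X15_rel hz1 hz2
    have r4 := X15_Z hz1 hz0
    refine mul_ne_zero (mul_ne_zero two_ne_zero (pow_ne_zero 3 r4)) ?_
    intro h
    change 1 + fY (e.symm z) ^ 2 = 0 at h
    rw [h, mul_zero] at r1
    exact two_ne_zero r1.symm
  have hC : IsDif (uZ ∩ (uN ∩ uV)) 1 (fun e x => X15_c x * dd fV e x) := by
    refine m1 _ 1 _ _ oC ?_ (m2 _ _ 1 _ (Set.inter_subset_right.trans Set.inter_subset_right) dV)
    intro e he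
    have k1 := hres fZ uZ (uZ ∩ (uN ∩ uV)) Set.inter_subset_left hH.hZ e he
    have k2 := hres fV uV (uZ ∩ (uN ∩ uV)) (Set.inter_subset_right.trans Set.inter_subset_right) hH.hV e he
    unfold X15_c
    refine (((k1.pow 3).const_mul 2).mul ((k2.pow 2).const_add 1)).inv ?_
    rintro z ⟨-, hz1, hz0, hz2⟩
    have r4 := X15_Z hz1 hz0
    exact mul_ne_zero (mul_ne_zero two_ne_zero (pow_ne_zero 3 r4)) (X15_V hz1 hz2)
  have hglue := m7 (Fin 3) ![uZ ∩ (uY ∩ uV), uZ ∩ (uN ∩ uY), uZ ∩ (uN ∩ uV)] 1 eta0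
    ![fun e x => X15_a x * dd fZ e x, fun e x => X15_b x * dd fY e x, fun e x => X15_c x * dd fV e x]
    (by intro i; fin_cases i; exacts [oA, oB, oC]) (by intro i; fin_cases i; exacts [hA, hB, hC]) ?_
  · refine m2 _ _ 1 _ ?_ hglue
    intro x hx
    rw [Set.mem_iUnion]
    by_cases h1 : x.1.2 = OnePoint.infty
    · refine ⟨2, hx, ?_, ?_⟩
      · obtain ⟨z, hz, hz', -, -⟩ := X15_inf hx h1
        show x.1.1 ≠ OnePoint.some 0
        rw [hz]
        intro h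
        have h' : z = 0 := OnePoint.coe_injective h
        rw [h'] at hz'
        norm_num at hz'
      · show x.1.2 ≠ OnePoint.some 0
        rw [h1]
        exact (OnePoint.coe_ne_infty _).symm
    · by_cases h2 : x.1.2 = OnePoint.some 0
      · refine ⟨1, hx, ?_, h1⟩
        obtain ⟨z, y, hz, hz', -, -, -⟩ := X15_fin hx h1
        show x.1.1 ≠ OnePoint.some 0
        have hy : y = 0 := by
          rw [hz] at h2
          exact OnePoint.coe_injective h2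
        rw [hz]
        intro h
        have h' : z = 0 := OnePoint.coe_injective h
        rw [h', hy] at hz'
        norm_num at hz'
      · exact ⟨0, hx, h1, h2⟩
  · intro i e he x hxi hxe
    fin_cases i
    · obtain ⟨h1, h2, h3⟩ := hxi
      show eta0 e x = X15_a x * dd fZ e x
      unfold eta0 X15_a
      rw [if_neg h2, if_neg h3]
      rw [div_eq_inv_mul]
    · obtain ⟨h1, h0, h2⟩ := hxi
      show eta0 e x = X15_b x * dd fY e x
      by_cases h3 : x.1.2 = OnePoint.some 0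
      · unfold eta0 X15_b
        rw [if_neg h2, if_pos h3]
        rw [div_eq_inv_mul]
        ring
      · rw [← X15_AB hH he hxe h1 h0 h2 h3]
        unfold eta0 X15_a
        rw [if_neg h2, if_neg h3]
        rw [div_eq_inv_mul]
    · obtain ⟨h1, h0, h3⟩ := hxi
      show eta0 e x = X15_c x * dd fV e x
      by_cases h2 : x.1.2 = OnePoint.infty
      · unfold eta0 X15_c
        rw [if_pos h2]
        rw [div_eq_inv_mul]
      · rw [← X15_BC hH he hxe h1 h0 h2 h3, ← X15_AB hH he hxe h1 h0 h2 h3]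
        unfold eta0 X15_a
        rw [if_neg h2, if_neg h3]
        rw [div_eq_inv_mul]

end

end Pool.Agent.DL
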