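import Pool.Agent.helper67.DL.SpecG

set_option autoImplicit false

/-! # Module HH of project dl: the Hitchin section is a valid Higgs bundle -/

namespace Pool.Agent.DL

open Matrix Complex
open scoped ComplexOrder Manifold ContDiff

noncomputable section

theorem HH_m1 (p q u v : ℂ) (hu : u ≠ 0) (hv : v ≠ 0) :
    !![0, 0, q / u ^ 3; 1, 0, p / u ^ 2; 0, 1, 0] * diagonal ![v / u ^ 1, 1, u / v ^ 1] =
      (v / u ^ 1) • (diagonal ![v / u ^ 1, 1, u / v ^ 1] *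
        !![0, 0, q / v ^ 3; 1, 0, p / v ^ 2; 0, 1, 0]) := by
  ext a b
  rw [Matrix.mul_diagonal, Matrix.smul_apply, Matrix.diagonal_mul, smul_eq_mul]
  fin_cases a <;> fin_cases b <;> simp <;> field_simp

theorem HH_m2 (p q u v : ℂ) (hu : u ≠ 0) (hv : v ≠ 0) :
    !![0, p / u ^ 2 / 2, q / u ^ 3; 1, 0, p / u ^ 2 / 2; 0, 1, 0] * diagonal ![v / u ^ 1, 1, u / v ^ 1] =
      (v / u ^ 1) • (diagonal ![v / u ^ 1, 1, u / v ^ 1] *
        !![0, p / v ^ 2 / 2, q / v ^ 3; 1, 0, p / v ^ 2 / 2; 0, 1, 0]) := by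
  ext a b
  rw [Matrix.mul_diagonal, Matrix.smul_apply, Matrix.diagonal_mul, smul_eq_mul]
  fin_cases a <;> fin_cases b <;> simp <;> field_simp

theorem HH_g1 (u : ℂ) (hu : u ≠ 0) : diagonal ![u / u ^ 1, 1, u / u ^ 1] = (1 : Matrix (Fin 3) (Fin 3) ℂ) := by
  ext a b
  rw [Matrix.diagonal_apply, Matrix.one_apply]
  fin_cases a <;> fin_cases b <;> simp [hu]

theorem HH_g2 (u v w : ℂ) (hu : u ≠ 0) (hv : v ≠ 0) (hw : w ≠ 0) :
    (diagonal ![v / u ^ 1, 1, u / v ^ 1] * diagonal ![w / v ^ 1, 1, v / w ^ 1] : Matrix (Fin 3) (Fin 3) ℂ) =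
      diagonal ![w / u ^ 1, 1, u / w ^ 1] := by
  rw [Matrix.diagonal_mul_diagonal]
  congr 1
  funext a
  fin_cases a <;> simp <;> field_simp

theorem HH (hGA : GA_stmt) : HH_stmt := by
  intro X _ _ C q₂ q₃ hC h2 h3
  obtain ⟨c1, c2, c3, c4⟩ := hC
  have hrat : ∀ i j, HoloOn (C.rat i j) (C.U i ∩ C.U j) := by
    intro i j
    exact ((hGA X (C.U i) (C.η i) (c3 i) (c4 i)).2.2 1 (C.η j) (C.U j) (c1 i) (c1 j) (c3 j)).1
  have hrat' : ∀ i j, HoloOn (C.rat j i) (C.U i ∩ C.U j) := by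
    intro i j
    rw [Set.inter_comm]
    exact hrat j i
  have hc : ∀ (c : ℂ) (U : Set X), HoloOn (fun _ => c) U := by
    intro c U e _
    exact differentiableOn_const c
  have hgh : ∀ i j (a b : Fin 3), HoloOn (fun x => (diagonal ![C.rat i j x, 1, C.rat j i x] :
      Matrix (Fin 3) (Fin 3) ℂ) a b) (C.U i ∩ C.U j) := by
    intro i j a b
    by_cases hab : a = b
    · subst hab
      simp only [Matrix.diagonal_apply_eq]
      fin_cases a
      · exact hrat i j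
      · exact hc 1 _
      · exact hrat' i j
    · simp only [Matrix.diagonal_apply_ne _ hab]
      exact hc 0 _
  have hq : ∀ (m : ℕ) (q : Fam X), IsDif Set.univ m q → ∀ i, HoloOn (quo q (C.η i) m) (C.U i) := by
    intro m q hq i
    have := ((hGA X (C.U i) (C.η i) (c3 i) (c4 i)).2.2 m q Set.univ (c1 i) isOpen_univ hq).1
    rwa [Set.inter_univ] at this
  have hqh : ∀ i, HoloOn (fun x => quo q₂ (C.η i) 2 x / 2) (C.U i) := by
    intro i e he
    exact (hq 2 q₂ h2 i e he).div_const 2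
  have hgs : ∀ i, ∀ x ∈ C.U i, (diagonal ![C.rat i i x, 1, C.rat i i x] : Matrix (Fin 3) (Fin 3) ℂ) = 1 := by
    intro i x hx
    exact HH_g1 _ (c4 i x hx)
  have hgm : ∀ i j k, ∀ x ∈ C.U i ∩ C.U j ∩ C.U k,
      (diagonal ![C.rat i j x, 1, C.rat j i x] * diagonal ![C.rat j k x, 1, C.rat k j x] :
        Matrix (Fin 3) (Fin 3) ℂ) = diagonal ![C.rat i k x, 1, C.rat k i x] := by
    intro i j k x hx
    exact HH_g2 _ _ _ (c4 i x hx.1.1) (c4 j x hx.1.2) (c4 k x hx.2)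
  have hdet : ∀ i j, ∀ x ∈ C.U i ∩ C.U j,
      (diagonal ![C.rat i j x, 1, C.rat j i x] : Matrix (Fin 3) (Fin 3) ℂ).det = 1 := by
    intro i j x hx
    rw [Matrix.det_diagonal, Fin.prod_univ_three]
    have hu := c4 i x hx.1
    have hv := c4 j x hx.2
    simp only [Cov.rat, quo]
    simp
    field_simp
  refine ⟨⟨⟨c1, c2, c3, c4⟩, hgh, hgs, hgm, ?_, ?_⟩, ⟨hdet, ?_⟩,
    ⟨⟨c1, c2, c3, c4⟩, hgh, hgs, hgm, ?_, ?_⟩, ⟨hdet, ?_⟩⟩
  · intro i a b
    fin_cases a <;> fin_cases b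
    · exact hc 0 _
    · exact hc 0 _
    · exact hq 3 q₃ h3 i
    · exact hc 1 _
    · exact hc 0 _
    · exact hq 2 q₂ h2 i
    · exact hc 0 _
    · exact hc 1 _
    · exact hc 0 _
  · intro i j x hx
    exact HH_m1 _ _ _ _ (c4 i x hx.1) (c4 j x hx.2)
  · intro i x _
    show trace !![0, 0, quo q₃ (C.η i) 3 x; 1, 0, quo q₂ (C.η i) 2 x; 0, 1, 0] = 0
    rw [Matrix.trace_fin_three]
    simp
  · intro i a b
    fin_cases a <;> fin_cases b
    · exact hc 0 _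
    · exact hqh i
    · exact hq 3 q₃ h3 i
    · exact hc 1 _
    · exact hc 0 _
    · exact hqh i
    · exact hc 0 _
    · exact hc 1 _
    · exact hc 0 _
  · intro i j x hx
    exact HH_m2 _ _ _ _ (c4 i x hx.1) (c4 j x hx.2)
  · intro i x _
    show trace !![0, quo q₂ (C.η i) 2 x / 2, quo q₃ (C.η i) 3 x; 1, 0, quo q₂ (C.η i) 2 x / 2; 0, 1, 0] = 0
    rw [Matrix.trace_fin_three]
    simp

end

end Pool.Agent.DL
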