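import Pool.Agent.helper52.DL.X15

set_option autoImplicit false

/-! # Module X17 of project dl: `η0 = ν² η1` -/

namespace Pool.Agent.DL

open Matrix Complex
open scoped ComplexOrder Manifold ContDiff

noncomputable section

theorem X17_N {p : XT} (h1 : p ∈ uZ) : fN p = (fZ p)⁻¹ := by
  obtain ⟨z, hz⟩ := X15_some (p := p.1.1) h1
  have h : fZ p = z := by
    unfold fZ
    rw [hz]
    rfl
  rw [h]
  unfold fN
  rw [hz]
  rfl

theorem X17_d [ChartedSpace ℂ XT] (hH : HolX) {e : OpenPartialHomeomorph XT ℂ} (he : e ∈ atlas ℂ XT)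
    {x : XT} (hx : x ∈ e.source) (h1 : x ∈ uZ) (h2 : x ∈ uN) :
    dd fZ e x * fN x + fZ x * dd fN e x = 0 := by
  have a1 := (X15_diff hH.hN hH.oN he hx h2).hasDerivAt
  have a2 := (X15_diff hH.hZ hH.oZ he hx h1).hasDerivAt
  have a3 := a2.mul a1
  have a4 : HasDerivAt (fun _ : ℂ => (1 : ℂ)) 0 (e x) := hasDerivAt_const _ _
  have a5 : (fun _ : ℂ => (1 : ℂ)) =ᶠ[nhds (e x)]
      fun z => fZ (e.symm z) * fN (e.symm z) := by
    filter_upwards [X15_ev hH.oZ hx h1, X15_ev hH.oN hx h2] with z hz1 hz2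
    rw [X17_N hz1, mul_inv_cancel₀ (X15_Z hz1 hz2)]
  have a6 := a3.unique (a4.congr_of_eventuallyEq a5.symm)
  simp only [e.left_inv hx] at a6
  unfold dd
  exact a6

theorem X17 : X17_stmt := by
  intro cs hH e he x hx hxe
  obtain ⟨h1, h0⟩ := hx
  have hN := X17_N h1
  have hZ := X15_Z h1 h0
  have hd := X17_d hH he hxe h1 h0
  unfold eta0 eta1
  by_cases h2 : x.1.2 = OnePoint.infty
  · rw [if_pos h2, if_pos h2, hN]
    have h3 : 1 + fV x ^ 2 ≠ 0 := by
      apply X15_V h1
      show x.1.2 ≠ OnePoint.some 0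
      rw [h2]
      exact (OnePoint.coe_ne_infty _).symm
    field_simp
  · by_cases h3 : x.1.2 = OnePoint.some 0
    · rw [if_neg h2, if_pos h3, if_neg h2, if_pos h3, hN]
      have r1 := X15_rel h1 h2
      have r6 : 1 + fY x ^ 2 ≠ 0 := by
        intro h
        rw [h, mul_zero] at r1
        exact two_ne_zero r1.symm
      field_simp
    · rw [if_neg h2, if_neg h3, if_neg h2, if_neg h3]
      have r1 := X15_rel h1 h2
      have r3 := (X15_YV h1 h2 h3).1
      have r5 : 1 + fZ x ^ 4 ≠ 0 := by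
        intro h
        rw [h, zero_mul] at r1
        exact two_ne_zero r1.symm
      have r9 : dd fN e x = -(dd fZ e x / fZ x ^ 2) := by
        rw [hN] at hd
        field_simp at hd ⊢
        linear_combination hd
      have r10 : 1 + (fZ x)⁻¹ ^ 4 = (1 + fZ x ^ 4) / fZ x ^ 4 := by
        field_simp
        ring
      rw [hN, r9, r10]
      field_simp

end

end Pool.Agent.DL
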